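import Pool.Agent.Helper49.AL.Expand

/-!
# The closure lemma: the Conway polynomial of the closure of a tangle is one of its weights
-/

set_option autoImplicit false

namespace Pool.Agent.Helper49.AL

open Polynomial Classical Pool.Agent.Helper29.Arb

variable {P : Type} [DecidableEq P] {G : Shadow P}

/-- One step of the travel in the state `S`. -/
def stp (G : Shadow P) (S : Finset P) (i : P) : P := G.nxt (ex G S i)

theorem tr_sm (S : Finset P) : ((allPos G).sm S).tr = stp G S := by
  funext i
  unfold Diag.tr stp ex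
  by_cases h : i ∈ S ∨ G.op i ∈ S
  · rw [if_pos h, if_pos (sm_st_mem (allPos G) S i h)]
  · have h2 : ((allPos G).sm S).st i ≠ .smooth := by
      rw [sm_st_not (allPos G) S i (fun h3 => h (Or.inl h3)) (fun h3 => h (Or.inr h3))]
      intro h1
      cases h1
    rw [if_neg h, if_neg h2]

theorem stp_inj (S : Finset P) : Function.Injective (stp G S) := by
  rw [← tr_sm]
  exact tr_inj _

theorem ex_inj (S : Finset P) {i j : P} (h : ex G S i = ex G S j) : i = j :=
  stp_inj (G := G) S (by unfold stp; rw [h])

theorem seg_iter (S : Finset P) (n : ℕ) : ∀ x : P,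
    Seg G S x ((List.range (n + 1)).map fun k => (stp G S)^[k] x) (ex G S ((stp G S)^[n] x)) := by
  induction n with
  | zero =>
    intro x
    exact Seg.one x
  | succ n ih =>
    intro x
    have h := Seg.cons x (ih (stp G S x))
    have h1 : (List.range (n + 1 + 1)).map (fun k => (stp G S)^[k] x) =
        x :: (List.range (n + 1)).map fun k => (stp G S)^[k] (stp G S x) := by
      rw [List.range_succ_eq_map, List.map_cons, List.map_map]
      rfl
    rw [h1]
    exact h

theorem seg_eq {S : Finset P} {x : P} {l : List P} {e : P} (h : Seg G S x l e) :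
    ∃ n, l = (List.range (n + 1)).map (fun k => (stp G S)^[k] x) ∧ e = ex G S ((stp G S)^[n] x) := by
  induction h with
  | one x => exact ⟨0, rfl, rfl⟩
  | cons x h ih =>
    obtain ⟨n, h1, h2⟩ := ih
    refine ⟨n + 1, ?_, h2⟩
    rw [List.range_succ_eq_map, List.map_cons, List.map_map, h1]
    rfl

omit [DecidableEq P] in
theorem map_split (g : ℕ → P) (a b : ℕ) : (List.range (a + b)).map g =
    (List.range a).map g ++ (List.range b).map fun k => g (a + k) := by
  rw [List.range_add, List.map_append, List.map_map]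
  rfl

omit [DecidableEq P] in
/-- Two elements of a list which is given by a function on an interval. -/
theorem pair_sublist {f : ℕ → P} {a b n : ℕ} (hab : a < b) (hb : b < n) :
    [f a, f b].Sublist ((List.range n).map f) := by
  have h1 : List.range n = List.range b ++ (List.range (n - b)).map (b + ·) := by
    have : n = b + (n - b) := by omega
    conv_lhs => rw [this]
    exact List.range_add
  have h2 : ([a] ++ [b]).Sublist (List.range n) := by
    rw [h1]
    apply List.Sublist.append
    · exact List.singleton_sublist.2 (List.mem_range.2 hab)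
    · apply List.singleton_sublist.2
      rw [List.mem_map]
      exact ⟨0, List.mem_range.2 (by omega), rfl⟩
  exact h2.map f

omit [DecidableEq P] in
theorem of_pair_sublist {f : ℕ → P} {i j : P} {n : ℕ}
    (h : [i, j].Sublist ((List.range n).map f)) : ∃ a b, a < b ∧ b < n ∧ f a = i ∧ f b = j := by
  obtain ⟨l', h1, h2⟩ := List.sublist_map_iff.1 h
  match l', h1, h2 with
  | [], _, h2 => simp at h2
  | [a], _, h2 => simp at h2
  | [a, b], h1, h2 =>
    simp only [List.map_cons, List.map_nil, List.cons.injEq, and_true] at h2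
    have h3 := List.Pairwise.sublist h1 List.pairwise_lt_range
    refine ⟨a, b, ?_, ?_, h2.1.symm, h2.2.symm⟩
    · simpa using h3
    · exact List.mem_range.1 (h1.subset (by simp))
  | a :: b :: c :: t, _, h2 => simp at h2

theorem two_of_asc [Fintype P] {x y e f : P} (hef : e ≠ f) (h1 : G.nxt e = y) (h2 : G.nxt f = x)
    {S : Finset P} (h : Asc (allPos G) x S) : Two G Finset.univ x y e f S := by
  unfold Asc at h
  rw [tr_sm] at h
  obtain ⟨hA, hB⟩ := h
  have hxy : y ≠ x := by
    intro h3
    rw [← h1, ← h2] at h3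
    exact hef (G.nxt.injective h3)
  -- the period
  have hper : x ∈ Function.periodicPts (stp G S) :=
    (stp_inj (G := G) S).mem_periodicPts x
  set N := Function.minimalPeriod (stp G S) x with hN
  have hN0 : 0 < N := Function.minimalPeriod_pos_of_mem_periodicPts hper
  have hNx : (stp G S)^[N] x = x := Function.iterate_minimalPeriod
  have hinj : ∀ a < N, ∀ b < N, (stp G S)^[a] x = (stp G S)^[b] x → a = b := by
    intro a ha b hb hab
    exact Function.iterate_injOn_Iio_minimalPeriod ha hb hab
  have hmod : ∀ i, ∃ k < N, (stp G S)^[k] x = i := by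
    intro i
    obtain ⟨k, hk⟩ := hA i
    refine ⟨k % N, Nat.mod_lt _ hN0, ?_⟩
    rw [hN, Function.iterate_mod_minimalPeriod_eq]
    exact hk
  obtain ⟨j, hj, hjy⟩ := hmod y
  have hj0 : j ≠ 0 := by
    rintro rfl
    exact hxy hjy.symm
  obtain ⟨j, rfl⟩ : ∃ j', j = j' + 1 := ⟨j - 1, by omega⟩
  obtain ⟨n, hn⟩ : ∃ n, N = j + 1 + (n + 1) := ⟨N - (j + 1) - 1, by omega⟩
  have e1 : ex G S ((stp G S)^[j] x) = e := by
    apply G.nxt.injective
    change stp G S ((stp G S)^[j] x) = G.nxt e
    rw [← Function.iterate_succ_apply' (stp G S), hjy, h1]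
  have e2 : ex G S ((stp G S)^[n] y) = f := by
    apply G.nxt.injective
    change stp G S ((stp G S)^[n] y) = G.nxt f
    rw [← Function.iterate_succ_apply' (stp G S), ← hjy, ← Function.iterate_add_apply,
      show n + 1 + (j + 1) = N by omega, hNx, h2]
  have hlm : (List.range (j + 1)).map (fun k => (stp G S)^[k] x) ++
      (List.range (n + 1)).map (fun k => (stp G S)^[k] y) =
      (List.range N).map fun k => (stp G S)^[k] x := by
    rw [hn, map_split _ (j + 1) (n + 1)]
    congr 1
    refine List.map_congr_left fun k _ => ?_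
    rw [← hjy, ← Function.iterate_add_apply, add_comm k]
  refine ⟨_, _, e1 ▸ seg_iter S j x, e2 ▸ seg_iter S n y, ?_, ?_, ?_⟩
  · rw [hlm]
    refine List.Nodup.map_on ?_ List.nodup_range
    intro a ha b hb hab
    exact hinj a (List.mem_range.1 ha) b (List.mem_range.1 hb) hab
  · intro p
    rw [hlm]
    refine ⟨fun _ => Finset.mem_univ _, fun _ => ?_⟩
    obtain ⟨k, hk, hk2⟩ := hmod p
    exact List.mem_map.2 ⟨k, List.mem_range.2 hk, hk2⟩
  · intro i hi
    rw [hlm]
    obtain ⟨b, hb, hb2⟩ := hmod (G.op i)
    obtain ⟨a, ha, ha2⟩ := hB i hi b hb2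
    rw [← hb2, ← ha2]
    exact pair_sublist (f := fun k => (stp G S)^[k] x) ha hb

theorem asc_of_two [Fintype P] {x y e f : P} (h1 : G.nxt e = y) (h2 : G.nxt f = x)
    {S : Finset P} (h : Two G Finset.univ x y e f S) : Asc (allPos G) x S := by
  obtain ⟨l, m, hl, hm, hnd, hcov, hasc⟩ := h
  obtain ⟨j, rfl, e1⟩ := seg_eq hl
  obtain ⟨n, rfl, e2⟩ := seg_eq hm
  have hjy : (stp G S)^[j + 1] x = y := by
    rw [Function.iterate_succ_apply', ← h1, e1]
    rfl
  have hNx : (stp G S)^[n + 1 + (j + 1)] x = x := by
    rw [Function.iterate_add_apply, hjy, Function.iterate_succ_apply']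
    conv_rhs => rw [← h2, e2]
    rfl
  have hlm : (List.range (j + 1)).map (fun k => (stp G S)^[k] x) ++
      (List.range (n + 1)).map (fun k => (stp G S)^[k] y) =
      (List.range (j + 1 + (n + 1))).map fun k => (stp G S)^[k] x := by
    rw [map_split _ (j + 1) (n + 1)]
    congr 1
    refine List.map_congr_left fun k _ => ?_
    rw [← hjy, ← Function.iterate_add_apply, add_comm k]
  rw [hlm] at hnd hcov
  unfold Asc
  rw [tr_sm]
  constructor
  · intro i
    obtain ⟨k, _, hk⟩ := List.mem_map.1 ((hcov i).2 (Finset.mem_univ i))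
    exact ⟨k, hk⟩
  · intro i hi k hk
    have h3 := hasc i hi
    rw [hlm] at h3
    obtain ⟨a, b, hab, hb, ha2, hb2⟩ := of_pair_sublist h3
    refine ⟨a, ?_, ha2⟩
    have hN0 : 0 < j + 1 + (n + 1) := by omega
    have hNx' : (stp G S)^[j + 1 + (n + 1)] x = x := by
      rw [show j + 1 + (n + 1) = n + 1 + (j + 1) by omega]
      exact hNx
    have h4 : (stp G S)^[k % (j + 1 + (n + 1))] x = (stp G S)^[k] x := by
      have h5 : Function.IsPeriodicPt (stp G S) (j + 1 + (n + 1)) x := hNx'
      exact h5.iterate_mod_apply k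
    have h5 : k % (j + 1 + (n + 1)) = b := by
      have h6 := List.inj_on_of_nodup_map hnd (List.mem_range.2 (Nat.mod_lt k hN0))
        (List.mem_range.2 hb) (h4.trans (hk.trans hb2.symm))
      exact h6
    have h6 := Nat.mod_le k (j + 1 + (n + 1))
    omega

/-- **The closure lemma.** -/
theorem nab_eq_W [Fintype P] {nab : Diag G → ℤ[X]} (h : IsConway nab) {x y e f : P} (hef : e ≠ f)
    (h1 : G.nxt e = y) (h2 : G.nxt f = x) : nab (allPos G) = W G Finset.univ x y e f := by
  rw [expand h x]
  unfold W
  rw [Finset.inter_univ]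
  apply Finset.sum_congr _ fun _ _ => rfl
  ext S
  rw [Finset.mem_filter, Finset.mem_filter]
  exact and_congr_right fun _ => ⟨fun h3 => two_of_asc hef h1 h2 h3, fun h3 => asc_of_two h1 h2 h3⟩

end Pool.Agent.Helper49.AL
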