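import Pool.Agent.Helper49.AL.ExpandInd

/-!
# The state formula for positive link diagrams
-/

set_option autoImplicit false

namespace Pool.Agent.Helper49.AL

open Polynomial Classical Pool.Agent.Helper29.Arb

variable {P : Type} [Fintype P] [DecidableEq P] {G : Shadow P}

/-- The state formula: `nab` of the positive diagram is the sum of `X ^ |S|` over the ascending one-component states `S`. -/
theorem expand {nab : Diag G → ℤ[X]} (h : IsConway nab) (b : P) :
    nab (allPos G) = ∑ S ∈ (und G).powerset.filter (fun S => Asc (allPos G) b S), X ^ S.card := by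
  have h1 := expand_ind h b (Fintype.card P) 0 (allPos G) (Nat.zero_add _)
    (fun l _ hl => absurd hl (by omega)) (fun l hl => absurd hl (by omega)) (fun i _ => rfl)
  have h2 : unv (allPos G) b 0 = und G := by
    unfold unv
    rw [Finset.filter_eq_self]
    intro i _ l hl
    exact absurd hl (by omega)
  rw [h1, h2]

theorem coeff_eq {nab : Diag G → ℤ[X]} (h : IsConway nab) (b : P) (m : ℕ) :
    (nab (allPos G)).coeff m =
      (((und G).powersetCard m).filter fun S => Asc (allPos G) b S).card := by
  rw [expand h b, Polynomial.finsetSum_coeff]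
  simp only [Polynomial.coeff_X_pow]
  rw [Finset.sum_boole]
  congr 2
  ext S
  simp only [Finset.mem_filter, Finset.mem_powerset, Finset.mem_powersetCard]
  constructor
  · rintro ⟨⟨h3, h4⟩, h5⟩
    exact ⟨⟨h3, h5.symm⟩, h4⟩
  · rintro ⟨⟨h3, h5⟩, h4⟩
    exact ⟨⟨h3, h4⟩, h5.symm⟩

end Pool.Agent.Helper49.AL
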