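import Pool.Agent.Helper29.Arb.Defs

/-!
# Travelling along a diagram (port of `Pool.Agent.Helper76.PK.Travel` to links)
-/

set_option autoImplicit false

namespace Pool.Agent.Helper49.AL

open Pool.Agent.Helper29.Arb

variable {P : Type} {G : Shadow P}

theorem op_inj (G : Shadow P) : Function.Injective G.op :=
  Function.LeftInverse.injective G.op_op

theorem tr_inj (D : Diag G) : Function.Injective D.tr := by
  intro i j h
  have h1 := G.nxt.injective h
  by_cases hi : D.st i = .smooth
  · by_cases hj : D.st j = .smooth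
    · rw [if_pos hi, if_pos hj] at h1
      exact op_inj G h1
    · rw [if_pos hi, if_neg hj] at h1
      exfalso
      apply hj
      rw [← h1, D.st_op]
      exact hi
  · by_cases hj : D.st j = .smooth
    · rw [if_neg hi, if_pos hj] at h1
      exfalso
      apply hi
      rw [h1, D.st_op]
      exact hj
    · rw [if_neg hi, if_neg hj] at h1
      exact h1

private theorem Travel_cancel (D : Diag G) (b : P) {l m : ℕ} (hlm : l ≤ m)
    (h : D.tr^[l] b = D.tr^[m] b) : D.tr^[m - l] b = b := by
  have h1 : m = l + (m - l) := by omega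
  rw [h1, Function.iterate_add_apply] at h
  exact ((tr_inj D).iterate l h).symm

theorem tr_period [Fintype P] (D : Diag G) (b : P) : ∃ n, 0 < n ∧ n ≤ Fintype.card P ∧ D.tr^[n] b = b := by
  obtain ⟨x, y, hxy, h⟩ := Fintype.exists_ne_map_eq_of_card_lt
    (fun k : Fin (Fintype.card P + 1) => D.tr^[k.val] b) (by simp)
  have h' : D.tr^[x.val] b = D.tr^[y.val] b := h
  have hx := x.isLt
  have hy := y.isLt
  have hne : x.val ≠ y.val := fun h1 => hxy (Fin.ext h1)
  rcases lt_or_gt_of_ne hne with h1 | h1
  · exact ⟨y.val - x.val, by omega, by omega, Travel_cancel D b h1.le h'⟩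
  · exact ⟨x.val - y.val, by omega, by omega, Travel_cancel D b h1.le h'.symm⟩

theorem iterate_ne (D : Diag G) (b : P) {k : ℕ} (h : ∀ l, 0 < l → l < k → D.tr^[l] b ≠ b)
    {l m : ℕ} (hlm : l < m) (hm : m < k) : D.tr^[l] b ≠ D.tr^[m] b := by
  intro h1
  exact h (m - l) (by omega) (by omega) (Travel_cancel D b hlm.le h1)

theorem closed_orbit (D : Diag G) (b : P) {k : ℕ} (_hk : 0 < k) (hb : D.tr^[k] b = b) (m : ℕ) :
    D.tr^[m] b = D.tr^[m % k] b := by
  have h1 : ∀ q : ℕ, D.tr^[k * q] b = b := by
    intro q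
    induction q with
    | zero => rfl
    | succ q ih => rw [Nat.mul_succ, Function.iterate_add_apply, hb, ih]
  conv_lhs => rw [← Nat.mod_add_div m k]
  rw [Function.iterate_add_apply, h1]

private theorem Travel_tr_congr (D D' : Diag G) (i : P)
    (h : D'.st i = .smooth ↔ D.st i = .smooth) : D'.tr i = D.tr i := by
  show G.nxt (if D'.st i = .smooth then G.op i else i) = G.nxt (if D.st i = .smooth then G.op i else i)
  by_cases h1 : D.st i = .smooth
  · rw [if_pos h1, if_pos (h.2 h1)]
  · rw [if_neg h1, if_neg (fun h2 => h1 (h.1 h2))]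

theorem iterate_congr (D D' : Diag G) (b : P) (k : ℕ)
    (h : ∀ l < k, (D'.st (D.tr^[l] b) = .smooth ↔ D.st (D.tr^[l] b) = .smooth)) :
    ∀ l ≤ k, D'.tr^[l] b = D.tr^[l] b := by
  intro l
  induction l with
  | zero => intro _; rfl
  | succ l ih =>
    intro hl
    rw [Function.iterate_succ_apply', Function.iterate_succ_apply', ih (by omega)]
    exact Travel_tr_congr D D' _ (h l (by omega))

variable [DecidableEq P]

theorem sm_st_mem (D : Diag G) (S : Finset P) (i : P) (h : i ∈ S ∨ G.op i ∈ S) :
    (D.sm S).st i = .smooth := if_pos h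

theorem sm_st_not (D : Diag G) (S : Finset P) (i : P) (h : i ∉ S) (h' : G.op i ∉ S) :
    (D.sm S).st i = D.st i := if_neg (fun h1 => h1.elim h h')

theorem upd_st (D : Diag G) (i : P) (t : St) (j : P) (h : j = i ∨ j = G.op i) :
    (D.upd i t).st j = t := if_pos h

theorem upd_st_ne (D : Diag G) (i : P) (t : St) (j : P) (h : j ≠ i) (h' : j ≠ G.op i) :
    (D.upd i t).st j = D.st j := if_neg (fun h1 => h1.elim h h')

theorem upd_self (D : Diag G) (i : P) : D.upd i (D.st i) = D := by
  apply Diag.ext
  funext j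
  by_cases h : j = i ∨ j = G.op i
  · rw [upd_st D i _ j h]
    rcases h with h | h
    · rw [h]
    · rw [h, D.st_op]
  · push Not at h
    exact upd_st_ne D i _ j h.1 h.2

theorem upd_upd (D : Diag G) (i : P) (s t : St) : (D.upd i s).upd i t = D.upd i t := by
  apply Diag.ext
  funext j
  by_cases h : j = i ∨ j = G.op i
  · rw [upd_st _ i _ j h, upd_st _ i _ j h]
  · push Not at h
    rw [upd_st_ne _ i _ j h.1 h.2, upd_st_ne _ i _ j h.1 h.2, upd_st_ne _ i _ j h.1 h.2]

theorem sm_insert (D : Diag G) (S : Finset P) (i : P) :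
    (D.upd i .smooth).sm S = D.sm (insert i S) := by
  apply Diag.ext
  funext j
  by_cases h : j ∈ S ∨ G.op j ∈ S
  · rw [sm_st_mem _ S j h, sm_st_mem _ (insert i S) j
      (h.imp (Finset.mem_insert_of_mem) (Finset.mem_insert_of_mem))]
  · push Not at h
    rw [sm_st_not _ S j h.1 h.2]
    by_cases h2 : j = i ∨ j = G.op i
    · rw [upd_st _ i _ j h2, sm_st_mem _ (insert i S) j]
      rcases h2 with h2 | h2
      · left
        rw [h2]
        exact Finset.mem_insert_self i S
      · right
        rw [h2, G.op_op]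
        exact Finset.mem_insert_self i S
    · push Not at h2
      rw [upd_st_ne _ i _ j h2.1 h2.2, sm_st_not _ (insert i S) j]
      · rw [Finset.mem_insert, not_or]
        exact ⟨h2.1, h.1⟩
      · rw [Finset.mem_insert, not_or]
        refine ⟨fun h3 => h2.2 ?_, h.2⟩
        rw [← h3, G.op_op]

end Pool.Agent.Helper49.AL
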